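import Pool.Agent.Helper7.HL.Stmts

/-!
Row CNT of MP_ac62f2: the middle coefficients of a product of q-integers.
-/

namespace Pool.Agent.Helper28.HL

open Finset
open Pool.Agent.Helper7.HL

theorem cnt_coeff (n : ℕ) (m : Fin n → ℕ) (N : ℕ) :
    (∏ c, qi (m c)).coeff N =
      (((Fintype.piFinset fun c => range (m c)).filter fun x => ∑ c, x c = N).card : ℤ) := by
  have h1 : (∏ c, qi (m c)) = ∑ x ∈ Fintype.piFinset fun c => range (m c),
      (Polynomial.X : Polynomial ℤ) ^ (∑ c, x c) := by
    unfold qi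
    rw [Finset.prod_univ_sum]
    apply Finset.sum_congr rfl
    intro x _
    rw [Finset.prod_pow_eq_pow_sum]
  rw [h1, Polynomial.finsetSum_coeff, Finset.card_filter]
  push_cast
  apply Finset.sum_congr rfl
  intro x _
  rw [Polynomial.coeff_X_pow]
  by_cases hx : ∑ c, x c = N
  · rw [if_pos hx.symm, if_pos hx]
  · rw [if_neg (fun h => hx h.symm), if_neg hx]

theorem st_CNT : ST_CNT := by
  intro n h w hn hh
  obtain ⟨n', rfl⟩ : ∃ n', n = n' + 1 := ⟨n - 1, by omega⟩
  refine ⟨2 * w + 4 * (n' + 1) + 4, fun k N hk hkN hN => ?_⟩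
  rw [cnt_coeff]
  norm_cast
  set m := k / (4 * (n' + 1)) with hm
  have hm1 : 4 * (n' + 1) * m ≤ k := Nat.mul_div_le k (4 * (n' + 1))
  set S := ∑ c, h c with hS
  have hS0 : 0 < S := by
    rw [hS]
    exact Finset.sum_pos (fun c _ => hh c) ⟨0, Finset.mem_univ _⟩
  have hmN : (n' + 1) * m ≤ N := by nlinarith
  set M := N - (n' + 1) * m with hM
  have hMN : M + (n' + 1) * m = N := by omega
  set A : Fin (n' + 1) → ℕ := fun c => h c * M / S with hA
  have hA1 : ∀ c, A c * S ≤ h c * M := fun c => Nat.div_mul_le_self _ _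
  have hA2 : ∀ c, h c * M ≤ (A c + 1) * S := fun c => by
    have := Nat.lt_mul_div_succ (h c * M) hS0
    rw [mul_comm (A c + 1) S]
    exact this.le
  have hle : ∀ c, h c ≤ S := fun c => by
    rw [hS]
    exact Finset.single_le_sum (fun c _ => Nat.zero_le _) (Finset.mem_univ c)
  have hM2 : ∀ c, 2 * (h c * M) ≤ (k * h c + w) * S := fun c => by
    have h1 : 2 * (h c * M) ≤ h c * (2 * N) := by
      have : h c * M ≤ h c * N := Nat.mul_le_mul_left _ (by omega)
      linarith
    have h2 : h c * (2 * N) ≤ h c * (k * S + w) := Nat.mul_le_mul_left _ hN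
    have h3 : h c * w ≤ S * w := Nat.mul_le_mul_right _ (hle c)
    nlinarith
  have hkh : ∀ c, k ≤ k * h c := fun c => Nat.le_mul_of_pos_right _ (hh c)
  have hA3 : ∀ c, 2 * A c ≤ k * h c + w := fun c => by
    have h1 : 2 * A c * S ≤ (k * h c + w) * S := by
      have := hA1 c
      have := hM2 c
      linarith
    exact Nat.le_of_mul_le_mul_right h1 hS0
  have hm4 : 4 * m ≤ k := by nlinarith
  have hAy : ∀ c, ∀ y < m, A c + y < k * h c := fun c y hy => by
    have h1 := hA3 c
    have h2 := hkh c
    omega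
  set a := ∑ j : Fin n', A j.succ with ha
  have hSs : S = h 0 + ∑ j : Fin n', h j.succ := by rw [hS, Fin.sum_univ_succ]
  have ha1 : a * S ≤ (∑ j : Fin n', h j.succ) * M := by
    rw [ha, Finset.sum_mul, Finset.sum_mul]
    exact Finset.sum_le_sum fun j _ => hA1 _
  have ha2 : (∑ j : Fin n', h j.succ) * M ≤ (a + n') * S := by
    have h1 : ∑ j : Fin n', h j.succ * M ≤ ∑ j : Fin n', (A j.succ + 1) * S :=
      Finset.sum_le_sum fun j _ => hA2 _
    rw [← Finset.sum_mul, ← Finset.sum_mul, Finset.sum_add_distrib] at h1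
    simpa using h1
  have haM : a ≤ M := by
    have h1 : a * S ≤ M * S := by
      refine ha1.trans ?_
      rw [mul_comm M S]
      exact Nat.mul_le_mul_right _ (by omega)
    exact Nat.le_of_mul_le_mul_right h1 hS0
  have hx0 : N < k * h 0 + a := by
    have h1 : 4 * N * S ≤ (2 * (k * h 0) + 2 * w + 4 * a + 4 * n' + k) * S := by
      have h2 : N * S = M * S + (n' + 1) * m * S := by rw [← hMN]; ring
      have h3 : M * S = h 0 * M + (∑ j : Fin n', h j.succ) * M := by
        rw [hSs]; ring
      have h4 := hM2 0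
      have h5 : 4 * ((n' + 1) * m * S) ≤ k * S := by
        have := Nat.mul_le_mul_right S hm1
        linarith
      nlinarith
    have h2 := Nat.le_of_mul_le_mul_right h1 hS0
    have h3 := hkh 0
    omega
  -- the injection
  have hcard : m ^ n' = (Finset.univ : Finset (Fin n' → Fin m)).card := by simp
  have hsub : n' + 1 - 1 = n' := by omega
  rw [hsub, hcard]
  apply Finset.card_le_card_of_injOn
    (fun y : Fin n' → Fin m => (Fin.cons (N - ∑ j : Fin n', (A j.succ + (y j : ℕ)))
      (fun j => A j.succ + (y j : ℕ)) : Fin (n' + 1) → ℕ))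
  · intro y _
    have hb : ∑ j : Fin n', (y j : ℕ) ≤ n' * m := by
      have := Finset.sum_le_card_nsmul (Finset.univ : Finset (Fin n')) (fun j => (y j : ℕ)) m
        (fun j _ => (y j).2.le)
      simpa using this
    have hab : ∑ j : Fin n', (A j.succ + (y j : ℕ)) = a + ∑ j : Fin n', (y j : ℕ) := by
      rw [Finset.sum_add_distrib]
    have hle2 : ∑ j : Fin n', (A j.succ + (y j : ℕ)) ≤ N := by
      rw [hab]
      have : (n' + 1) * m = n' * m + m := by ring
      omega
    have hk0 := hkh 0
    simp only [Finset.coe_filter, Set.mem_ofPred_eq, Fintype.mem_piFinset, Finset.mem_range]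
    constructor
    · intro c
      refine Fin.cases ?_ (fun j => ?_) c
      · rw [Fin.cons_zero, hab, mul_comm]
        rw [mul_comm] at hx0
        rw [mul_comm k] at hk0
        omega
      · rw [Fin.cons_succ]
        exact hAy _ _ (y j).2
    · rw [Fin.sum_univ_succ, Fin.cons_zero]
      simp only [Fin.cons_succ]
      omega
  · intro y _ y' _ hyy
    funext j
    have := congrFun hyy j.succ
    simp only [Fin.cons_succ] at this
    apply Fin.ext
    omega

end Pool.Agent.Helper28.HL
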