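import Pool.Agent.Helper7.HL.Stmts

/-!
Row EX of MP_ac62f2: existence of highest weight column tableaux.
-/

namespace Pool.Agent.Helper28.HL

open Finset
open Pool.Agent.Helper7.HL

/-- prefix sums -/
def ps (f : ℕ → ℕ) (m : ℕ) : ℕ := ∑ i ∈ range m, f i

theorem ps_succ (f : ℕ → ℕ) (m : ℕ) : ps f (m + 1) = ps f m + f m := by
  unfold ps
  rw [Finset.sum_range_succ]

theorem ps_const (f : ℕ → ℕ) (v a b : ℕ) (hab : a ≤ b) (h : ∀ i, a ≤ i → i < b → f i = v) :
    ps f b = ps f a + v * (b - a) := by
  obtain ⟨d, rfl⟩ := Nat.exists_eq_add_of_le hab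
  induction d with
  | zero => simp
  | succ d ih =>
    have h1 := ih (by omega) (fun i hi hi2 => h i hi (by omega))
    rw [← add_assoc, ps_succ, h1, h (a + d) (by omega) (by omega)]
    have : a + d + 1 - a = (a + d - a) + 1 := by omega
    rw [this]
    ring

theorem ps_ge (f : ℕ → ℕ) (v a b : ℕ) (hab : a ≤ b) (h : ∀ i, a ≤ i → i < b → v ≤ f i) :
    ps f a + v * (b - a) ≤ ps f b := by
  obtain ⟨d, rfl⟩ := Nat.exists_eq_add_of_le hab
  induction d with
  | zero => simp
  | succ d ih =>
    have h1 := ih (by omega) (fun i hi hi2 => h i hi (by omega))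
    rw [← add_assoc, ps_succ]
    have h2 := h (a + d) (by omega) (by omega)
    have : a + d + 1 - a = (a + d - a) + 1 := by omega
    rw [this, mul_add]
    omega

theorem ps_le (f : ℕ → ℕ) (v a b : ℕ) (hab : a ≤ b) (h : ∀ i, a ≤ i → i < b → f i ≤ v) :
    ps f b ≤ ps f a + v * (b - a) := by
  obtain ⟨d, rfl⟩ := Nat.exists_eq_add_of_le hab
  induction d with
  | zero => simp
  | succ d ih =>
    have h1 := ih (by omega) (fun i hi hi2 => h i hi (by omega))
    rw [← add_assoc, ps_succ]
    have h2 := h (a + d) (by omega) (by omega)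
    have : a + d + 1 - a = (a + d - a) + 1 := by omega
    rw [this, mul_add]
    omega

theorem strip (n c : ℕ) (L μ : ℕ → ℕ) (hc : 0 < c) (hμ : Antitone μ) (hL : Antitone L)
    (hL0 : ∀ i, c ≤ i → L i = 0) (hL1 : ∀ i, i < c → 1 ≤ L i) (hn : ∀ i, n ≤ i → μ i = 0)
    (hcn : c ≤ n) (hdom : ∀ m, ps μ m ≤ ps L m) (htot : ps μ n = ps L n) :
    ∃ C : Finset ℕ, C ⊆ range n ∧ C.card = c ∧ (∀ i ∈ C, 1 ≤ μ i) ∧
      (∀ i, μ (i + 1) - (if i + 1 ∈ C then 1 else 0) ≤ μ i - (if i ∈ C then 1 else 0)) ∧
      ∀ m, ps μ m + min m c ≤ ps L m + ∑ i ∈ range m, (if i ∈ C then 1 else 0) := by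
  -- the last row of the strip is not empty
  have hv : 1 ≤ μ (c - 1) := by
    by_contra hcon
    have h0 : μ (c - 1) = 0 := by omega
    have h1 : ps μ n = ps μ (c - 1) + 0 * (n - (c - 1)) :=
      ps_const μ 0 (c - 1) n (by omega) (fun i hi _ => by
        have := hμ hi
        omega)
    have h2 : ps L n = ps L c + 0 * (n - c) :=
      ps_const L 0 c n hcn (fun i hi _ => hL0 i hi)
    have h3 : ps L c = ps L (c - 1) + L (c - 1) := by
      rw [← ps_succ]
      congr 1
      omega
    have h4 := hL1 (c - 1) (by omega)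
    have h5 := hdom (c - 1)
    omega
  set v := μ (c - 1) with hvdef
  have hex1 : ∃ i, μ i ≤ v := ⟨c - 1, le_rfl⟩
  have hex2 : ∃ i, μ i < v := ⟨n, by rw [hn n le_rfl]; omega⟩
  classical
  set p := Nat.find hex1 with hp
  set e := Nat.find hex2 with he
  have hp1 : μ p ≤ v := Nat.find_spec hex1
  have hp2 : ∀ i, i < p → v < μ i := fun i hi => by
    have := Nat.find_min hex1 hi
    omega
  have he1 : μ e < v := Nat.find_spec hex2
  have he2 : ∀ i, i < e → v ≤ μ i := fun i hi => by
    have := Nat.find_min hex2 hi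
    omega
  have hpc : p ≤ c - 1 := Nat.find_min' hex1 le_rfl
  have hce : c ≤ e := by
    by_contra hcon
    have h1 : e ≤ c - 1 := by omega
    have h2 := hμ h1
    omega
  have hen : e ≤ n := Nat.find_min' hex2 (by rw [hn n le_rfl]; omega)
  have hpe : ∀ i, p ≤ i → i < e → μ i = v := fun i hi hi2 => by
    have h1 := hμ hi
    have h2 := he2 i hi2
    omega
  set t := e - (c - p) with ht
  have hpt : p ≤ t := by omega
  have hte : t + (c - p) = e := by omega
  refine ⟨range p ∪ Ico t e, ?_, ?_, ?_, ?_, ?_⟩
  · intro i hi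
    rw [Finset.mem_union, Finset.mem_range, Finset.mem_Ico] at hi
    rw [Finset.mem_range]
    omega
  · rw [Finset.card_union_of_disjoint]
    · rw [Finset.card_range, Nat.card_Ico]
      omega
    · rw [Finset.disjoint_left]
      intro i hi hi2
      rw [Finset.mem_range] at hi
      rw [Finset.mem_Ico] at hi2
      omega
  · intro i hi
    rw [Finset.mem_union, Finset.mem_range, Finset.mem_Ico] at hi
    rcases hi with hi | hi
    · have := hp2 i hi
      omega
    · have := he2 i hi.2
      omega
  · intro i
    have h1 : μ (i + 1) ≤ μ i := hμ (by omega)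
    by_cases h2 : μ (i + 1) = μ i
    · have h3 : i ∈ range p ∪ Ico t e → i + 1 ∈ range p ∪ Ico t e := by
        intro hi
        rw [Finset.mem_union, Finset.mem_range, Finset.mem_Ico] at hi ⊢
        rcases hi with hi | hi
        · left
          have h4 := hp2 i hi
          by_contra hcon
          have h5 := hμ (show p ≤ i + 1 by omega)
          omega
        · right
          have h4 := he2 i hi.2
          refine ⟨by omega, ?_⟩
          by_contra hcon
          have h5 := hμ (show e ≤ i + 1 by omega)
          omega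
      by_cases h4 : i ∈ range p ∪ Ico t e
      · rw [if_pos h4, if_pos (h3 h4), h2]
      · rw [if_neg h4]
        omega
    · split_ifs <;> omega
  · -- the dominance order
    set r : ℕ → ℕ := fun m => ∑ i ∈ range m, (if i ∈ range p ∪ Ico t e then 1 else 0) with hr
    have hrs : ∀ m, r (m + 1) = r m + (if m ∈ range p ∪ Ico t e then 1 else 0) := fun m => by
      simp only [hr]
      rw [Finset.sum_range_succ]
    have hrm : ∀ m, r m = min m p + (min m e - t) := by
      intro m
      induction m with
      | zero => simp [hr]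
      | succ m ih =>
        rw [hrs, ih]
        by_cases h1 : m ∈ range p ∪ Ico t e
        · rw [if_pos h1]
          rw [Finset.mem_union, Finset.mem_range, Finset.mem_Ico] at h1
          omega
        · rw [if_neg h1]
          rw [Finset.mem_union, Finset.mem_range, Finset.mem_Ico] at h1
          omega
    change ∀ m, ps μ m + min m c ≤ ps L m + r m
    have hbig : ∀ m, c ≤ m → ps μ m + min m c ≤ ps L m + r m := by
      intro m hm
      rw [hrm, min_eq_right hm]
      by_cases hme : e ≤ m
      · have := hdom m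
        rw [min_eq_right (show p ≤ m by omega), min_eq_right hme]
        omega
      · push Not at hme
        have h1 := ps_const μ v m e hme.le (fun i hi hi2 => hpe i (by omega) hi2)
        have h2 := ps_const L 0 m e hme.le (fun i hi _ => hL0 i (by omega))
        have h3 := hdom e
        have h4 : e - m ≤ v * (e - m) := Nat.le_mul_of_pos_left _ (by omega)
        rw [min_eq_right (show p ≤ m by omega), min_eq_left hme.le]
        rw [zero_mul, add_zero] at h2
        omega
    intro m
    by_cases hmc : c ≤ m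
    · exact hbig m hmc
    push Not at hmc
    rw [min_eq_left hmc.le]
    by_cases hmp : m ≤ p
    · have := hdom m
      rw [hrm, min_eq_left hmp]
      omega
    push Not at hmp
    by_cases hall : ∀ i, p ≤ i → i < m → v + 1 ≤ L i
    · have h1 := ps_const μ v p m hmp.le (fun i hi hi2 => hpe i hi (by omega))
      have h2 := ps_ge L (v + 1) p m hmp.le hall
      have h3 := hdom p
      rw [hrm, min_eq_right hmp.le]
      rw [add_mul, one_mul] at h2
      omega
    · push Not at hall
      obtain ⟨i, hi1, hi2, hi3⟩ := hall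
      have h1 := ps_const μ v m c hmc.le (fun i hi hi2 => hpe i (by omega) (by omega))
      have h2 := ps_le L v m c hmc.le (fun j hj _ => by
        have := hL (show i ≤ j by omega)
        omega)
      have h3 := hbig c le_rfl
      rw [min_self] at h3
      have h4 := hrm m
      have h5 := hrm c
      omega

/-- number of entries greater than `i` -/
def rw' (cs : List ℕ) (i : ℕ) : ℕ := cs.countP (fun c => decide (i < c))

theorem rw'_cons (c : ℕ) (cs : List ℕ) (i : ℕ) :
    rw' (c :: cs) i = rw' cs i + if i < c then 1 else 0 := by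
  unfold rw'
  rw [List.countP_cons]
  simp

theorem rw'_anti (cs : List ℕ) : Antitone (rw' cs) := by
  intro i j hij
  unfold rw'
  apply List.countP_mono_left
  intro c _ hc
  simp only [decide_eq_true_eq] at hc ⊢
  omega

theorem rw'_zero (cs : List ℕ) (n : ℕ) (h : ∀ c ∈ cs, c ≤ n) (i : ℕ) (hi : n ≤ i) :
    rw' cs i = 0 := by
  unfold rw'
  rw [List.countP_eq_zero]
  intro c hc
  have := h c hc
  simp only [decide_eq_true_eq]
  omega

theorem ps_add (f g : ℕ → ℕ) (m : ℕ) : ps (fun i => f i + g i) m = ps f m + ps g m := by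
  unfold ps
  rw [Finset.sum_add_distrib]

theorem ps_ind (c m : ℕ) : ps (fun i => if i < c then 1 else 0) m = min m c := by
  induction m with
  | zero => simp [ps]
  | succ m ih =>
    rw [ps_succ, ih]
    split_ifs <;> omega

theorem ps_rw'_cons (c : ℕ) (cs : List ℕ) (m : ℕ) :
    ps (rw' (c :: cs)) m = ps (rw' cs) m + min m c := by
  rw [← ps_ind, ← ps_add]
  congr 1
  funext i
  exact rw'_cons c cs i

theorem ps_rw'_tot (cs : List ℕ) (n : ℕ) (h : ∀ c ∈ cs, c ≤ n) : ps (rw' cs) n = cs.sum := by
  induction cs with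
  | nil => simp [ps, rw']
  | cons c cs ih =>
    rw [ps_rw'_cons, ih (fun c' hc' => h c' (List.mem_cons_of_mem _ hc')), List.sum_cons,
      min_eq_right (h c (List.mem_cons_self ..))]
    ring

theorem ex_nat (n : ℕ) (cs : List ℕ) : ∀ μ : ℕ → ℕ, Dec cs → (∀ c ∈ cs, c ≤ n) →
    Antitone μ → (∀ i, n ≤ i → μ i = 0) → (∀ m, ps μ m ≤ ps (rw' cs) m) →
    ps μ n = ps (rw' cs) n →
    ∃ b ∈ tl n cs, HW n b ∧ ∀ i, wtc b i = μ i := by
  induction cs with
  | nil =>
    intro μ _ _ hμ hn hdom _
    refine ⟨[], by simp [tl], trivial, ?_⟩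
    intro i
    have h1 := hdom (i + 1)
    have h2 : ps (rw' []) (i + 1) = 0 := by simp [ps, rw']
    rw [h2, ps_succ] at h1
    simp only [wtc, List.countP_nil]
    omega
  | cons c cs ih =>
    intro μ hdec hcs hμ hn hdom htot
    have hcn : c ≤ n := hcs c (List.mem_cons_self ..)
    have hdec' : Dec cs := (List.pairwise_cons.1 hdec).2
    have hle : ∀ c' ∈ cs, c' ≤ c := (List.pairwise_cons.1 hdec).1
    have hcs' : ∀ c' ∈ cs, c' ≤ n := fun c' hc' => (hle c' hc').trans hcn
    obtain ⟨C, hC1, hC2, hC3, hC4, hC5⟩ : ∃ C : Finset ℕ, C ⊆ range n ∧ C.card = c ∧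
        (∀ i ∈ C, 1 ≤ μ i) ∧
        (∀ i, μ (i + 1) - (if i + 1 ∈ C then 1 else 0) ≤ μ i - (if i ∈ C then 1 else 0)) ∧
        ∀ m, ps μ m + min m c ≤ ps (rw' (c :: cs)) m +
          ∑ i ∈ range m, (if i ∈ C then 1 else 0) := by
      by_cases hc0 : c = 0
      · subst hc0
        refine ⟨∅, by simp, by simp, by simp, ?_, ?_⟩
        · intro i
          simpa using hμ (Nat.le_succ i)
        · intro m
          simpa using hdom m
      · refine strip n c (rw' (c :: cs)) μ (by omega) hμ (rw'_anti _) ?_ ?_ hn hcn hdom htot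
        · intro i hi
          apply rw'_zero _ c _ i hi
          intro c' hc'
          rw [List.mem_cons] at hc'
          rcases hc' with h | h
          · omega
          · exact hle c' h
        · intro i hi
          rw [rw'_cons, if_pos hi]
          omega
    set μ' : ℕ → ℕ := fun i => μ i - (if i ∈ C then 1 else 0) with hμ'
    have hadd : ∀ i, μ' i + (if i ∈ C then 1 else 0) = μ i := by
      intro i
      simp only [hμ']
      by_cases hi : i ∈ C
      · have := hC3 i hi
        rw [if_pos hi]
        omega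
      · rw [if_neg hi]
        omega
    have hps : ∀ m, ps μ' m + ∑ i ∈ range m, (if i ∈ C then 1 else 0) = ps μ m := by
      intro m
      unfold ps
      rw [← Finset.sum_add_distrib]
      exact Finset.sum_congr rfl fun i _ => hadd i
    have hsumC : ∑ i ∈ range n, (if i ∈ C then 1 else 0) = c := by
      rw [← Finset.sum_filter, Finset.sum_const, smul_eq_mul, mul_one, ← hC2]
      congr 1
      ext i
      rw [Finset.mem_filter]
      exact ⟨fun h => h.2, fun h => ⟨hC1 h, h⟩⟩
    obtain ⟨b, hb1, hb2, hb3⟩ := ih μ' hdec' hcs' (antitone_nat_of_succ_le hC4)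
      (fun i hi => by simp only [hμ']; rw [hn i hi]; omega)
      (fun m => by
        have h1 := hC5 m
        have h2 := hps m
        rw [ps_rw'_cons] at h1
        omega)
      (by
        have h2 := hps n
        rw [hsumC] at h2
        rw [ps_rw'_cons, min_eq_right hcn] at htot
        omega)
    have hwt : ∀ i, wtc (C :: b) i = μ i := by
      intro i
      unfold wtc
      rw [List.countP_cons]
      have h1 := hb3 i
      unfold wtc at h1
      rw [h1, ← hadd i]
      simp
    refine ⟨C :: b, ?_, ⟨hb2, ?_⟩, hwt⟩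
    · simp only [tl, Finset.mem_image, Finset.mem_product, Finset.mem_powersetCard]
      exact ⟨(C, b), ⟨⟨hC1, hC2⟩, hb1⟩, rfl⟩
    · intro i _
      rw [hwt, hwt]
      exact hμ (Nat.le_succ i)

/-- sums over finite sets and prefix sums -/
theorem sum_le_ps (f : ℕ → ℕ) (hf : Antitone f) (T : Finset ℕ) : ∑ i ∈ T, f i ≤ ps f T.card := by
  have h1 : ∑ i ∈ T, f i = ∑ j : Fin T.card, f (T.orderEmbOfFin rfl j) := by
    have h2 := Finset.sum_map Finset.univ (T.orderEmbOfFin rfl).toEmbedding f
    rw [Finset.map_orderEmbOfFin_univ] at h2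
    exact h2
  rw [h1]
  unfold ps
  rw [← Fin.sum_univ_eq_sum_range]
  apply Finset.sum_le_sum
  intro j _
  apply hf
  have h2 : ∀ m (hm : m < T.card), m ≤ T.orderEmbOfFin rfl ⟨m, hm⟩ := by
    intro m
    induction m with
    | zero => intro _; exact Nat.zero_le _
    | succ m ih =>
      intro hm
      have h3 := ih (by omega)
      have h4 : T.orderEmbOfFin rfl ⟨m, by omega⟩ < T.orderEmbOfFin rfl ⟨m + 1, hm⟩ :=
        (T.orderEmbOfFin rfl).strictMono (by simp [Fin.lt_def])
      omega
  exact h2 j j.2

theorem st_EX : ST_EX := by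
  intro n cs μ hdec hcs hμ hsum hdge
  set μN : ℕ → ℕ := fun i => if h : i < n then μ ⟨i, h⟩ else 0 with hμN
  have hμi : ∀ i : Fin n, μN i = μ i := fun i => by
    simp only [hμN]
    rw [dif_pos i.2]
  have hanti : Antitone μN := by
    intro i j hij
    simp only [hμN]
    by_cases hj : j < n
    · rw [dif_pos hj, dif_pos (by omega)]
      exact hμ (by exact hij)
    · rw [dif_neg hj]
      exact Nat.zero_le _
  have hzero : ∀ i, n ≤ i → μN i = 0 := fun i hi => by
    simp only [hμN]
    rw [dif_neg (by omega)]
  have htot : ps μN n = cs.sum := by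
    rw [← hsum]
    unfold ps
    rw [← Fin.sum_univ_eq_sum_range]
    exact Finset.sum_congr rfl fun i _ => hμi i
  have hLtot := ps_rw'_tot cs n hcs
  have hdom : ∀ m, ps μN m ≤ ps (rw' cs) m := by
    intro m
    by_cases hm : n ≤ m
    · have h1 := ps_const μN 0 n m hm (fun i hi _ => hzero i hi)
      have h2 := ps_const (rw' cs) 0 n m hm (fun i hi _ => rw'_zero cs n hcs i hi)
      rw [h1, h2, htot, hLtot]
    push Not at hm
    obtain ⟨S, hS1, hS2⟩ := hdge (Finset.univ.filter fun i : Fin n => i.val < m)
    have hcard : (Finset.univ.filter fun i : Fin n => i.val < m).card = m := by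
      have h1 : (Finset.univ.filter fun i : Fin n => i.val < m).map Fin.valEmbedding =
          range m := by
        ext i
        simp only [Finset.mem_map, Finset.mem_filter, Finset.mem_univ, true_and,
          Fin.valEmbedding_apply, Finset.mem_range]
        constructor
        · rintro ⟨j, hj, rfl⟩
          exact hj
        · intro hi
          exact ⟨⟨i, by omega⟩, hi, rfl⟩
      rw [← Finset.card_map Fin.valEmbedding, h1, Finset.card_range]
    have hmu : ∑ i ∈ Finset.univ.filter (fun i : Fin n => i.val < m), (μ i : ℤ) =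
        (ps μN m : ℤ) := by
      unfold ps
      push_cast
      have h1 : range m = (Finset.univ.filter fun i : Fin n => i.val < m).map
          Fin.valEmbedding := by
        ext i
        simp only [Finset.mem_map, Finset.mem_filter, Finset.mem_univ, true_and,
          Fin.valEmbedding_apply, Finset.mem_range]
        constructor
        · intro hi
          exact ⟨⟨i, by omega⟩, hi, rfl⟩
        · rintro ⟨j, hj, rfl⟩
          exact hj
      rw [h1, Finset.sum_map]
      exact Finset.sum_congr rfl fun i _ => by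
        rw [Fin.valEmbedding_apply, hμi]
    have hla : ∑ i ∈ S, (rowl n cs i : ℤ) ≤ (ps (rw' cs) m : ℤ) := by
      have h1 : ∑ i ∈ S, (rowl n cs i : ℤ) =
          ((∑ i ∈ S.map Fin.valEmbedding, rw' cs i : ℕ) : ℤ) := by
        rw [Finset.sum_map]
        push_cast
        rfl
      rw [h1]
      have h2 := sum_le_ps (rw' cs) (rw'_anti cs) (S.map Fin.valEmbedding)
      rw [Finset.card_map, hS1, hcard] at h2
      exact_mod_cast h2
    rw [hmu] at hS2
    exact_mod_cast hS2.trans hla
  obtain ⟨b, hb1, hb2, hb3⟩ := ex_nat n cs μN hdec hcs hanti hzero hdom (by rw [htot, hLtot])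
  exact ⟨b, hb1, hb2, fun i => by rw [hb3, hμi]⟩

end Pool.Agent.Helper28.HL
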